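import Mathlib
import Pool.Agent.Helper85.ChoiPoly

/-!
# A polynomial-time construction of sets forcing small admissible subsets (Q1)
-/

set_option autoImplicit false

namespace Pool.Agent.Results.MP_d065a3_lc.ExplicitChoiSet

open Pool.Agent.Helper85.ChoiSet Pool.Agent.Helper85.ChoiPoly

/-- Lists of natural numbers as strings: every entry is written in unary and followed by the
separator `false`. -/
def encodeList (l : List ℕ) : List Bool := l.flatMap fun a => List.replicate a true ++ [false]

/-- `A` is admissible with respect to the set of members of `S`: no two distinct members of `A` have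
their sum in `S`. -/
def Admissible (S : List ℕ) (A : Finset ℕ) : Prop := ∀ a ∈ A, ∀ b ∈ A, a ≠ b → a + b ∉ S

/-- The bound: at most `n ^ (2/3)` and at most `n ^ (2/3) * (ln n) ^ (2/3)`. -/
noncomputable def bound (n : ℕ) : ℝ :=
  (n : ℝ) ^ (2 / 3 : ℝ) * min 1 (Real.log n ^ (2 / 3 : ℝ))

lemma half_le (n : ℕ) (hn : 2 ≤ n) : (1 / 2 : ℝ) ≤ min 1 (Real.log n ^ (2 / 3 : ℝ)) := by
  refine le_min (by norm_num) ?_
  have h1 : (1 / 2 : ℝ) ≤ Real.log n := by
    have h2 : Real.log 2 ≤ Real.log n := Real.log_le_log (by norm_num) (by exact_mod_cast hn)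
    have := Real.log_two_gt_d9
    linarith
  calc (1 / 2 : ℝ) = (1 / 2 : ℝ) ^ (1 : ℝ) := by rw [Real.rpow_one]
    _ ≤ (1 / 2 : ℝ) ^ (2 / 3 : ℝ) :=
      Real.rpow_le_rpow_of_exponent_ge (by norm_num) (by norm_num) (by norm_num)
    _ ≤ Real.log n ^ (2 / 3 : ℝ) := Real.rpow_le_rpow (by norm_num) h1 (by norm_num)

/-- There are a constant `C` and a function `f`, computable in polynomial time by a deterministic
Turing machine from `n` in unary, such that for every `n ≥ 2` the list `f n` has no repetitions,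
has all its members in `[2n, 4n)`, has at most `C * bound n` members, and every set
`A ⊆ [n, 2n)` that is admissible with respect to `f n` has at most `C * bound n` elements. -/
theorem result : ∃ (C : ℝ) (f : ℕ → List ℕ),
    Nonempty (Turing.TM2ComputableInPolyTime Computability.unaryEncodeNat encodeList f) ∧
    ∀ n : ℕ, 2 ≤ n → (f n).Nodup ∧ (∀ m ∈ f n, 2 * n ≤ m ∧ m < 4 * n) ∧
      ((f n).length : ℝ) ≤ C * bound n ∧
      ∀ A : Finset ℕ, A ⊆ Finset.Ico n (2 * n) → Admissible (f n) A →
        (A.card : ℝ) ≤ C * bound n := by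
  refine ⟨256, out, out_polyTime, ?_⟩
  intro n hn
  have hn1 : 1 ≤ n := by omega
  obtain ⟨h1, h2, h3⟩ := main n hn1
  have hb : (128 : ℝ) * (n : ℝ) ^ (2 / 3 : ℝ) ≤ 256 * bound n := by
    have h4 := half_le n hn
    have h5 : (0 : ℝ) ≤ (n : ℝ) ^ (2 / 3 : ℝ) := by positivity
    unfold bound
    nlinarith [mul_le_mul_of_nonneg_left h4 h5]
  refine ⟨nodup_out n, ?_, ?_, ?_⟩
  · intro m hm
    have := h1 ((mem_out n hn1 m).1 hm)
    exact Finset.mem_Ico.1 this
  · rw [length_out n hn1]
    exact h2.trans hb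
  · intro A hA hadm
    refine (h3 A hA ?_).trans hb
    intro a ha b hb hab hmem
    exact hadm a ha b hb hab ((mem_out n hn1 _).2 hmem)

end Pool.Agent.Results.MP_d065a3_lc.ExplicitChoiSet
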